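import Pool.Agent.Helper97.Nag.Goals
import Pool.Agent.Helper94.Tate.LEV

/-!
# Project NAG (MP_d3128a_ag): LEVK (packet 13590)

Adapted from `Pool/Agent/Helper94/Tate/LEV.lean`.
-/

set_option autoImplicit false

noncomputable section

namespace Pool.Agent.Helper39.Nag.LEVK

open Module Pool.Agent.Helper97.Tate Pool.Agent.Helper97.Nag
open Pool.Agent.Helper94.Tate.LEV (isTh_pow isTh_prod isTh_sum exists_int hom_int)

variable {F : Type} [Field F]

/-- restriction of integral forms -/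
theorem isTh_form (hM : S_MUL) (hL : S_LIN) (hT : S_THC) {k : ℕ} (hk : 3 ≤ k) {e : ℕ}
    {z : MvPolynomial (Fin 3) (OO F)} (hz : z.IsHomogeneous e) :
    IsTh (k * e) (1 : F)
      (MvPolynomial.eval₂ iO (fun r : Fin 3 => Th k ((r : ℕ) : ℤ) (1 : F)) z) := by
  rw [MvPolynomial.eval₂_eq']
  apply isTh_sum hL
  intro m hm
  apply (hL F (k * e) 1).2.2.2
  have h1 := isTh_prod hM Finset.univ (fun i : Fin 3 => k * m i) (fun i : Fin 3 => (1 : F) ^ m i)
    (fun i : Fin 3 => Th k ((i : ℕ) : ℤ) (1 : F) ^ m i) (by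
      intro i _
      apply isTh_pow hM
      exact (hT F k ((i : ℕ) : ℤ) 1 one_ne_zero (by omega) (by have := i.2; omega)).2.1)
  have h2 : ∑ i : Fin 3, k * m i = k * e := by
    rw [← Finset.mul_sum]
    congr 1
    have h3 := hz (MvPolynomial.mem_support_iff.1 hm)
    rw [Finsupp.weight_apply, Finsupp.sum_fintype] at h3
    · simpa using h3
    · intro i
      simp
  simpa [h2] using h1

theorem evK_form (hE : S_EVC) (k : ℕ) (x : Fˣ) (z : MvPolynomial (Fin 3) (OO F)) :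
    evK x (MvPolynomial.eval₂ iO (fun r : Fin 3 => Th k ((r : ℕ) : ℤ) (1 : F)) z) =
      MvPolynomial.aeval (phk k x) (MvPolynomial.map (algebraMap (OO F) (KK F)) z) := by
  rw [MvPolynomial.hom_eval₂, MvPolynomial.aeval_def, MvPolynomial.eval₂_map]
  congr 1
  ext1 a
  exact (hE F x 0 0 0).2.2 a

/-- a form of multiplicity `a` at the point of parameter `w` restricts to a series divisible by
`s ^ a` -/
theorem vsr (h1 : S_VAB) (k : ℕ) (w : Fˣ) (a : ℕ) (z : MvPolynomial (Fin 3) (KK F))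
    (hz : z ∈ Van (ptk k w) a) : PowerSeries.X ^ a ∣ MvPolynomial.aeval (phk k w) z := by
  obtain ⟨-, -, -, h4⟩ := h1 (KK F) (ptk k w)
  have h5 := h4 (PowerSeries (KK F)) (MvPolynomial.aeval (phk k w))
    (Ideal.span {(PowerSeries.X : PowerSeries (KK F))}) a z (by
      intro r
      rw [Ideal.mem_span_singleton, PowerSeries.X_dvd_iff, map_sub, MvPolynomial.aeval_X]
      have h6 : (algebraMap (KK F) (PowerSeries (KK F))) (ptk k w r) =
          PowerSeries.C (PowerSeries.constantCoeff (phk k w r)) := rfl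
      rw [h6, PowerSeries.constantCoeff_C, sub_self]) hz
  rw [Ideal.span_singleton_pow, Ideal.mem_span_singleton] at h5
  exact h5

/-- the existence of the coefficients -/
theorem exists_v (hM : S_MUL) (hL : S_LIN) (hT : S_THC) (hB : S_BAS) (hE : S_EVC)
    (hD : S_DVK) (hR : S_VAB) (k : ℕ) (hk : 3 ≤ k) {ι : Type} [Fintype ι] (w : ι → Fˣ)
    (hw : Function.Injective w) (e n κ : ℕ)
    (hκ : 1 ≤ κ) (hκn : κ + Fintype.card ι * n = k * e) (z : MvPolynomial (Fin 3) (KK F))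
    (hz : z ∈ SysK k w e n) :
    ∃ v : Fin κ → KK F, ∀ x : Fˣ, MvPolynomial.aeval (phk k x) z =
      (∏ i, evK x (th (w i))) ^ n *
        ∑ r : Fin κ, PowerSeries.C (v r) *
          evK x (Th κ ((r : ℕ) : ℤ) (∏ i, (-((w i : Fˣ) : F)) ^ n)) := by
  obtain ⟨hz1, hz2⟩ := Submodule.mem_inf.1 hz
  rw [Submodule.mem_iInf] at hz2
  rw [MvPolynomial.mem_homogeneousSubmodule] at hz1
  obtain ⟨δ, z', hδ, hz'⟩ := exists_int z
  have hz'1 := hom_int hz1 hz'
  set f : SS F := MvPolynomial.eval₂ iO (fun r : Fin 3 => Th k ((r : ℕ) : ℤ) (1 : F)) z' with hf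
  have hf1 : IsTh (κ + ∑ i : ι, n) (1 : F) f := by
    rw [Finset.sum_const, Finset.card_univ, smul_eq_mul, hκn]
    exact isTh_form hM hL hT hk hz'1
  have hf2 : ∀ x : Fˣ, evK x f = PowerSeries.C (algebraMap (OO F) (KK F) δ) *
      MvPolynomial.aeval (phk k x) z := by
    intro x
    rw [hf, evK_form hE, hz', map_mul, MvPolynomial.aeval_C]
    rfl
  obtain ⟨N, h, hh1, hh2⟩ := hD F ι w hw (fun _ => n) κ 1 f hκ one_ne_zero hf1 (by
      intro i
      rw [hf2]
      exact Dvd.dvd.mul_left (vsr hR k (w i) _ z (hz2 i)) _)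
  rw [one_mul] at hh1
  set c : F := ∏ i, (-((w i : Fˣ) : F)) ^ n with hcdef
  have hc0 : c ≠ 0 := Finset.prod_ne_zero_iff.2 fun i _ => pow_ne_zero _ (neg_ne_zero.2 (Units.ne_zero _))
  have hb := (hB F κ c hκ hc0).1 h hh1
  have hX : (PowerSeries.X : SS F) = iO PowerSeries.X := by
    rw [iO, PowerSeries.map_X]
  have hs0 : algebraMap (OO F) (KK F) (PowerSeries.X ^ N * δ) ≠ 0 := by
    rw [Ne, map_eq_zero_iff _ (IsFractionRing.injective (OO F) (KK F))]
    exact mul_ne_zero (pow_ne_zero _ PowerSeries.X_ne_zero) hδ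
  refine ⟨fun r => (algebraMap (OO F) (KK F) (PowerSeries.X ^ N * δ))⁻¹ *
    algebraMap (OO F) (KK F) (ser h ((r : ℕ) : ℤ)), fun x => ?_⟩
  have e1 := congrArg (evK x) hh2
  rw [map_mul, map_mul, hf2, map_prod] at e1
  have e2 : evK x ((PowerSeries.X : SS F) ^ N) =
      PowerSeries.C (algebraMap (OO F) (KK F) (PowerSeries.X ^ N)) := by
    rw [hX, ← map_pow, (hE F x 0 0 0).2.2]
  have e3 : evK x h = ∑ r : Fin κ, PowerSeries.C (algebraMap (OO F) (KK F) (ser h ((r : ℕ) : ℤ))) *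
      evK x (Th κ ((r : ℕ) : ℤ) c) := by
    conv_lhs => rw [hb]
    rw [map_sum]
    apply Finset.sum_congr rfl
    intro r _
    rw [map_mul, (hE F x 0 0 0).2.2]
  rw [e2, e3] at e1
  simp only [map_pow] at e1
  rw [Finset.prod_pow] at e1
  have e4 : ∀ r : Fin κ, PowerSeries.C ((algebraMap (OO F) (KK F) (PowerSeries.X ^ N * δ))⁻¹ *
      algebraMap (OO F) (KK F) (ser h ((r : ℕ) : ℤ))) * evK x (Th κ ((r : ℕ) : ℤ) c) =
      PowerSeries.C (algebraMap (OO F) (KK F) (PowerSeries.X ^ N * δ))⁻¹ *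
      (PowerSeries.C (algebraMap (OO F) (KK F) (ser h ((r : ℕ) : ℤ))) *
        evK x (Th κ ((r : ℕ) : ℤ) c)) := by
    intro r
    rw [map_mul, mul_assoc]
  have e5 : PowerSeries.C (algebraMap (OO F) (KK F) (PowerSeries.X ^ N * δ)) *
      (MvPolynomial.aeval (phk k x) z) =
      (∏ i, evK x (th (w i))) ^ n *
        ∑ r : Fin κ, PowerSeries.C (algebraMap (OO F) (KK F) (ser h ((r : ℕ) : ℤ))) *
          evK x (Th κ ((r : ℕ) : ℤ) c) := by
    rw [← e1]
    simp only [map_mul, map_pow]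
    ring
  have e6 : PowerSeries.C (algebraMap (OO F) (KK F) (PowerSeries.X ^ N * δ))⁻¹ *
      PowerSeries.C (algebraMap (OO F) (KK F) (PowerSeries.X ^ N * δ)) = 1 := by
    rw [← map_mul, inv_mul_cancel₀ hs0, map_one]
  rw [Finset.sum_congr rfl fun r _ => e4 r, ← Finset.mul_sum]
  calc _ = (PowerSeries.C (algebraMap (OO F) (KK F) (PowerSeries.X ^ N * δ))⁻¹ *
      PowerSeries.C (algebraMap (OO F) (KK F) (PowerSeries.X ^ N * δ))) *
      (MvPolynomial.aeval (phk k x) z) := by rw [e6, one_mul]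
    _ = PowerSeries.C (algebraMap (OO F) (KK F) (PowerSeries.X ^ N * δ))⁻¹ *
      (PowerSeries.C (algebraMap (OO F) (KK F) (PowerSeries.X ^ N * δ)) *
      (MvPolynomial.aeval (phk k x) z)) := by rw [mul_assoc]
    _ = _ := by
      rw [e5]
      ring

/-- the product of the theta functions does not vanish at another parameter -/
theorem prod_ne (hZ : S_THZ) {ι : Type} [Fintype ι] (w : ι → Fˣ) (x : Fˣ) (hx : ∀ i, x ≠ w i)
    (n : ℕ) : (∏ i, evK x (th (w i))) ^ n ≠ 0 := by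
  refine pow_ne_zero _ (Finset.prod_ne_zero_iff.2 fun i _ hi => ?_)
  apply (hZ F (w i) x).2.2.1 (hx i)
  rw [hi, map_zero]

theorem t (hD : S_DVK) (hN : S_KRNK) (hM : S_MUL) (hL : S_LIN) (hT : S_THC) (hB : S_BAS)
    (hE : S_EVC) (hU : S_EVU) (hZ : S_THZ) (hR : S_VAB) : S_LEVK := by
  classical
  intro F _ _ k g hk hg ι _ w hw e n κ hκ hκn
  choose! v hv using fun z hz => exists_v hM hL hT hB hE hD hR k hk w hw e n κ hκ hκn z hz
  obtain ⟨x0, hx0⟩ : ∃ x : Fˣ, ∀ i, x ≠ w i := by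
    obtain ⟨x, hx⟩ := Infinite.exists_notMem_finset (insert (0 : F) (Finset.univ.image fun i => (w i : F)))
    have hx0 : x ≠ 0 := fun h => hx (by rw [h]; exact Finset.mem_insert_self _ _)
    refine ⟨Units.mk0 x hx0, fun i hi => hx (Finset.mem_insert_of_mem
      (Finset.mem_image.2 ⟨i, Finset.mem_univ i, ?_⟩))⟩
    rw [← hi]
    rfl
  set c : F := ∏ i, (-((w i : Fˣ) : F)) ^ n with hcdef
  have hc0 : c ≠ 0 := Finset.prod_ne_zero_iff.2 fun i _ => pow_ne_zero _ (neg_ne_zero.2 (Units.ne_zero _))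
  have hP0 := prod_ne hZ w x0 hx0 n
  have huniq : ∀ v1 v2 : Fin κ → KK F, (∏ i, evK x0 (th (w i))) ^ n *
        ∑ r : Fin κ, PowerSeries.C (v1 r) * evK x0 (Th κ ((r : ℕ) : ℤ) c) =
      (∏ i, evK x0 (th (w i))) ^ n *
        ∑ r : Fin κ, PowerSeries.C (v2 r) * evK x0 (Th κ ((r : ℕ) : ℤ) c) → v1 = v2 := by
    intro v1 v2 h
    rw [← sub_eq_zero]
    apply hU F x0 κ c hκ hc0
    have h1 : ∀ r : Fin κ, PowerSeries.C ((v1 - v2) r) * evK x0 (Th κ ((r : ℕ) : ℤ) c) =
        PowerSeries.C (v1 r) * evK x0 (Th κ ((r : ℕ) : ℤ) c) -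
          PowerSeries.C (v2 r) * evK x0 (Th κ ((r : ℕ) : ℤ) c) := by
      intro r
      rw [Pi.sub_apply, map_sub, sub_mul]
    rw [Finset.sum_congr rfl fun r _ => h1 r, Finset.sum_sub_distrib, sub_eq_zero]
    exact mul_left_cancel₀ hP0 h
  let a : SysK k w e n →ₗ[KK F] (Fin κ → KK F) :=
    { toFun := fun z => v z
      map_add' := by
        intro z z'
        apply huniq
        rw [← hv _ (z + z').2 x0, Submodule.coe_add, map_add, hv _ z.2 x0, hv _ z'.2 x0,
          ← mul_add, ← Finset.sum_add_distrib]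
        congr 1
        apply Finset.sum_congr rfl
        intro r _
        rw [Pi.add_apply, map_add, add_mul]
      map_smul' := by
        intro s z
        apply huniq
        have h1 : MvPolynomial.aeval (phk k x0) (s • (z : MvPolynomial (Fin 3) (KK F))) =
            PowerSeries.C s * MvPolynomial.aeval (phk k x0) (z : MvPolynomial (Fin 3) (KK F)) := by
          rw [map_smul, Algebra.smul_def]
          rfl
        rw [← hv _ (s • z).2 x0, Submodule.coe_smul, h1, hv _ z.2 x0, mul_left_comm,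
          Finset.mul_sum]
        congr 1
        apply Finset.sum_congr rfl
        intro r _
        rw [RingHom.id_apply, Pi.smul_apply, smul_eq_mul, map_mul, mul_assoc] }
  have ha : ∀ z, a z = v z := fun z => rfl
  refine ⟨a, ?_, ?_⟩
  · intro z hz
    have hz1 : ((z : MvPolynomial (Fin 3) (KK F))).IsHomogeneous e :=
      (MvPolynomial.mem_homogeneousSubmodule _ _).1 (Submodule.mem_inf.1 z.2).1
    apply hN F k g hk hg x0 e _ hz1
    have h1 := hv _ z.2 x0
    rw [ha] at hz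
    rw [hz] at h1
    have h2 : ∑ r : Fin κ, PowerSeries.C ((0 : Fin κ → KK F) r) * evK x0 (Th κ ((r : ℕ) : ℤ) c) = 0 := by
      apply Finset.sum_eq_zero
      intro r _
      rw [Pi.zero_apply, map_zero, zero_mul]
    rw [h2, mul_zero] at h1
    exact h1
  · intro x z
    exact hv _ z.2 x

end Pool.Agent.Helper39.Nag.LEVK
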